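import Mathlib

set_option autoImplicit false
open MeasureTheory
open scoped ENNReal

namespace Pool.Agent.MP_735563_an.H6

variable {X : Type} [MeasurableSpace X] {μ : Measure X}

/-- The measure of the set of points leaving `A` under `φ`. -/
noncomputable def bd (μ : Measure X) (φ : X → X) (A : Set X) : ℝ := μ.real (A \ φ ⁻¹' A)

theorem real_mono [IsFiniteMeasure μ] {s t : Set X} (h : s ⊆ t) : μ.real s ≤ μ.real t :=
  measureReal_mono h (measure_ne_top _ _)

theorem bd_nonneg (φ : X → X) (A : Set X) : 0 ≤ bd μ φ A := measureReal_nonneg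

theorem real_pre {φ : X → X} (hφ : MeasurePreserving φ μ μ) {A : Set X} (hA : MeasurableSet A) :
    μ.real (φ ⁻¹' A) = μ.real A := by
  simp only [Measure.real, hφ.measure_preimage hA.nullMeasurableSet]

theorem bd_compl [IsFiniteMeasure μ] {φ : X → X} (hφ : MeasurePreserving φ μ μ) {A : Set X}
    (hA : MeasurableSet A) : bd μ φ Aᶜ = bd μ φ A := by
  unfold bd
  have e : Aᶜ \ φ ⁻¹' Aᶜ = φ ⁻¹' A \ A := by
    ext x; simp only [Set.mem_sdiff, Set.mem_compl_iff, Set.mem_preimage]; tauto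
  have h1 := measureReal_inter_add_sdiff (μ := μ) (s := A) (hφ.measurable hA)
  have h2 := measureReal_inter_add_sdiff (μ := μ) (s := φ ⁻¹' A) hA
  rw [e]
  rw [real_pre hφ hA, Set.inter_comm] at h2
  linarith

/-- Exhaustion: a family of sets closed under increasing unions has a maximal member. -/
theorem exists_max [IsFiniteMeasure μ] (𝒜 : Set (Set X)) (h0 : ∅ ∈ 𝒜)
    (hU : ∀ A : ℕ → Set X, Monotone A → (∀ n, A n ∈ 𝒜) → (⋃ n, A n) ∈ 𝒜) :
    ∃ A ∈ 𝒜, ∀ A' ∈ 𝒜, A ⊆ A' → μ.real A' ≤ μ.real A := by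
  have step : ∀ (n : ℕ) (A : 𝒜), ∃ B : 𝒜, A.1 ⊆ B.1 ∧
      ∀ A' ∈ 𝒜, A.1 ⊆ A' → μ.real A' ≤ μ.real B.1 + 1 / ((n : ℝ) + 1) := by
    intro n A
    let T : Set ℝ := {t | ∃ A' ∈ 𝒜, A.1 ⊆ A' ∧ μ.real A' = t}
    have hne : T.Nonempty := ⟨_, A.1, A.2, subset_rfl, rfl⟩
    have hbd : BddAbove T := ⟨μ.real Set.univ, by
      rintro _ ⟨A', _, _, rfl⟩
      exact real_mono (Set.subset_univ _)⟩
    have hpos : (0 : ℝ) < 1 / ((n : ℝ) + 1) := by positivity
    obtain ⟨_, ⟨B, hB, hAB, rfl⟩, ht⟩ := exists_lt_of_lt_csSup hne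
      (show sSup T - 1 / ((n : ℝ) + 1) < sSup T by linarith)
    refine ⟨⟨B, hB⟩, hAB, fun A' hA' h => ?_⟩
    have := le_csSup hbd ⟨A', hA', h, rfl⟩
    linarith
  choose nx h1 h2 using step
  let A : ℕ → 𝒜 := fun n => Nat.rec ⟨∅, h0⟩ (fun k B => nx k B) n
  have hA : ∀ n, A (n + 1) = nx n (A n) := fun n => rfl
  have hmono : Monotone fun n => (A n).1 :=
    monotone_nat_of_le_succ fun n => by rw [hA]; exact h1 n (A n)
  refine ⟨⋃ n, (A n).1, hU _ hmono fun n => (A n).2, fun A' hA' h => ?_⟩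
  refine le_of_forall_pos_le_add fun η hη => ?_
  obtain ⟨n, hn⟩ := exists_nat_one_div_lt hη
  have a1 := h2 n (A n) A' hA' ((Set.subset_iUnion (fun n => (A n).1) n).trans h)
  have a2 : μ.real (nx n (A n)).1 ≤ μ.real (⋃ n, (A n).1) :=
    real_mono (by rw [← hA]; exact Set.subset_iUnion (fun n => (A n).1) (n + 1))
  linarith

theorem real_iUnion_le [IsFiniteMeasure μ] {A : ℕ → Set X} (hA : Monotone A) {c : ℝ}
    (h : ∀ n, μ.real (A n) ≤ c) : μ.real (⋃ n, A n) ≤ c := by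
  have := tendsto_measure_iUnion_atTop (μ := μ) hA
  have h2 := (ENNReal.tendsto_toReal (measure_ne_top μ _)).comp this
  exact le_of_tendsto' h2 h

theorem sum_real_iUnion_le [IsFiniteMeasure μ] {ι : Type} [Fintype ι] {A : ι → ℕ → Set X}
    (hA : ∀ i, Monotone (A i)) {c : ℝ} (h : ∀ n, ∑ i, μ.real (A i n) ≤ c) :
    ∑ i, μ.real (⋃ n, A i n) ≤ c := by
  have h2 : Filter.Tendsto (fun n => ∑ i, μ.real (A i n)) Filter.atTop
      (nhds (∑ i, μ.real (⋃ n, A i n))) :=
    tendsto_finsetSum _ fun i _ =>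
      (ENNReal.tendsto_toReal (measure_ne_top μ _)).comp (tendsto_measure_iUnion_atTop (hA i))
  exact le_of_tendsto' h2 h

/-- Strong ergodicity gives a large set with a Cheeger inequality inside it. -/
theorem exists_core [IsProbabilityMeasure μ] {ι : Type} [Fintype ι] {φ : ι → X → X}
    {ε : ℝ} (hε : 0 < ε)
    (hSE : ∀ A, MeasurableSet A → 1 / 3 ≤ μ.real A → μ.real A ≤ 2 / 3 → ε ≤ ∑ i, bd μ (φ i) A) :
    ∃ A, MeasurableSet A ∧ μ.real A < 1 / 3 ∧ ∀ C, MeasurableSet C →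
      2 * μ.real (C \ A) + μ.real A ≤ 1 → ε * μ.real (C \ A) ≤ ∑ i, bd μ (φ i) C := by
  let 𝒜 : Set (Set X) := {A | MeasurableSet A ∧ μ.real A ≤ 2 / 3 ∧
    ∑ i, bd μ (φ i) A ≤ ε * μ.real A}
  obtain ⟨A, ⟨hA, hA1, hA2⟩, hmax⟩ := exists_max (μ := μ) 𝒜
    ⟨MeasurableSet.empty, by norm_num, by simp [bd]⟩ (by
      intro A hmono hA
      refine ⟨MeasurableSet.iUnion fun n => (hA n).1, real_iUnion_le hmono fun n => (hA n).2.1, ?_⟩
      have e : ∀ i, (⋃ n, A n) \ φ i ⁻¹' (⋃ n, A n) = ⋃ n, (A n \ φ i ⁻¹' (⋃ n, A n)) :=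
        fun i => by rw [Set.iUnion_sdiff]
      unfold bd
      simp_rw [e]
      refine sum_real_iUnion_le (A := fun i n => A n \ φ i ⁻¹' (⋃ n, A n))
        (fun i m n h => Set.sdiff_subset_sdiff_left (hmono h)) fun n => ?_
      calc ∑ i, μ.real (A n \ φ i ⁻¹' (⋃ n, A n)) ≤ ∑ i, bd μ (φ i) (A n) :=
            Finset.sum_le_sum fun i _ => real_mono
              (Set.sdiff_subset_sdiff_right (Set.preimage_mono (Set.subset_iUnion A n)))
        _ ≤ ε * μ.real (A n) := (hA n).2.2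
        _ ≤ _ := mul_le_mul_of_nonneg_left (real_mono (Set.subset_iUnion A n)) hε.le)
  have hA3 : μ.real A < 1 / 3 := by
    by_contra h
    have := hSE A hA (not_lt.1 h) hA1
    nlinarith
  refine ⟨A, hA, hA3, fun C hC hC1 => ?_⟩
  by_contra hlt
  rw [not_le] at hlt
  have hU : μ.real (A ∪ C) = μ.real A + μ.real (C \ A) := by
    rw [← measureReal_union Set.disjoint_sdiff_right (hC.diff hA), Set.union_sdiff_self]
  have hb : ∀ i, bd μ (φ i) (A ∪ C) ≤ bd μ (φ i) A + bd μ (φ i) C := by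
    intro i
    refine le_trans (real_mono ?_) (measureReal_union_le _ _)
    rintro x ⟨h1, h2⟩
    simp only [Set.mem_preimage, Set.mem_union, not_or] at h2
    rcases h1 with h1 | h1
    · exact Or.inl ⟨h1, h2.1⟩
    · exact Or.inr ⟨h1, h2.2⟩
  have hs : ∑ i, bd μ (φ i) (A ∪ C) ≤ ∑ i, bd μ (φ i) A + ∑ i, bd μ (φ i) C := by
    rw [← Finset.sum_add_distrib]
    exact Finset.sum_le_sum fun i _ => hb i
  have h := hmax (A ∪ C) ⟨hA.union hC, by linarith, by rw [hU]; nlinarith⟩ Set.subset_union_left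
  have h0 : 0 ≤ ∑ i, bd μ (φ i) C := Finset.sum_nonneg fun i _ => bd_nonneg _ _
  have : 0 < μ.real (C \ A) := by
    by_contra h'
    have : ε * μ.real (C \ A) ≤ 0 := mul_nonpos_of_nonneg_of_nonpos hε.le (not_lt.1 h')
    linarith
  linarith

/-- An involution of the full group moving almost all of `A` into its complement. -/
theorem exists_swap {Γ : Type} [Group Γ] [Countable Γ] [MulAction Γ X] [IsProbabilityMeasure μ]
    (hmp : ∀ g : Γ, Measurable fun x : X => g • x)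
    (herg : ∀ B, MeasurableSet B → (∀ g : Γ, (fun x => g • x) ⁻¹' B = B) → μ B = 0 ∨ μ B = 1)
    (hfull : ∀ f : X → X, Measurable f → Function.Bijective f → (∀ x, ∃ g : Γ, f x = g • x) →
      μ.map f = μ)
    {A : Set X} (hA : MeasurableSet A) (hA2 : μ.real A < 1 / 2) :
    ∃ ψ : X → X, Measurable ψ ∧ Function.Involutive ψ ∧ (∀ x, ∃ g : Γ, ψ x = g • x) ∧
      μ (A ∩ ψ ⁻¹' A) = 0 := by
  classical
  obtain ⟨e, he⟩ := exists_surjective_nat Γ
  let U : ℕ → Set X := fun n => Nat.rec ∅ (fun k V =>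
    V ∪ ({x | x ∈ A ∧ x ∉ V ∧ e k • x ∉ A ∧ e k • x ∉ V} ∪
      {y | y ∉ A ∧ y ∉ V ∧ (e k)⁻¹ • y ∈ A ∧ (e k)⁻¹ • y ∉ V})) n
  let P : ℕ → Set X := fun k => {x | x ∈ A ∧ x ∉ U k ∧ e k • x ∉ A ∧ e k • x ∉ U k}
  let Q : ℕ → Set X := fun k => {y | y ∉ A ∧ y ∉ U k ∧ (e k)⁻¹ • y ∈ A ∧ (e k)⁻¹ • y ∉ U k}
  have hU : ∀ k, U (k + 1) = U k ∪ (P k ∪ Q k) := fun k => rfl
  have hUm : Monotone U := monotone_nat_of_le_succ fun k => by
    rw [hU]; exact Set.subset_union_left
  have hm : ∀ k, MeasurableSet (U k) → MeasurableSet (P k) ∧ MeasurableSet (Q k) := fun k h =>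
    ⟨hA.inter (h.compl.inter ((hmp _ hA).compl.inter (hmp _ h).compl)),
      hA.compl.inter (h.compl.inter ((hmp _ hA).inter (hmp _ h).compl))⟩
  have hUM : ∀ k, MeasurableSet (U k) := by
    intro k
    induction k with
    | zero => exact MeasurableSet.empty
    | succ k ih => rw [hU]; exact ih.union ((hm k ih).1.union (hm k ih).2)
  have hPM : ∀ k, MeasurableSet (P k) := fun k => (hm k (hUM k)).1
  have hQM : ∀ k, MeasurableSet (Q k) := fun k => (hm k (hUM k)).2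
  have huniq : ∀ j k x, x ∈ P j ∪ Q j → x ∈ P k ∪ Q k → j = k := by
    have aux : ∀ j k x, j < k → x ∈ P j ∪ Q j → x ∈ P k ∪ Q k → False := by
      intro j k x hjk h1 h2
      have h3 : x ∈ U k := hUm (show j + 1 ≤ k from hjk) (by rw [hU]; exact Or.inr h1)
      rcases h2 with h2 | h2
      · exact h2.2.1 h3
      · exact h2.2.1 h3
    intro j k x h1 h2
    rcases lt_trichotomy j k with h | h | h
    · exact (aux j k x h h1 h2).elim
    · exact h
    · exact (aux k j x h h2 h1).elim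
  have hPQ : ∀ k x, x ∈ P k → e k • x ∈ Q k := fun k x h =>
    ⟨h.2.2.1, h.2.2.2, by simpa using h.1, by simpa using h.2.1⟩
  have hQP : ∀ k x, x ∈ Q k → (e k)⁻¹ • x ∈ P k := fun k x h =>
    ⟨h.2.2.1, h.2.2.2, by simpa using h.1, by simpa using h.2.1⟩
  let W : Set X := ⋃ k, P k ∪ Q k
  have hp : ∀ x, ∃ n, x ∈ (P n ∪ Q n) ∪ Wᶜ := by
    intro x
    by_cases h : x ∈ W
    · obtain ⟨k, hk⟩ := Set.mem_iUnion.1 h
      exact ⟨k, Or.inl hk⟩
    · exact ⟨0, Or.inr h⟩
  let dP : ∀ n x, Decidable (x ∈ P n) := fun _ _ => Classical.propDecidable _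
  let dQ : ∀ n x, Decidable (x ∈ Q n) := fun _ _ => Classical.propDecidable _
  let G : ℕ → X → X := fun n x => if x ∈ P n then e n • x else if x ∈ Q n then (e n)⁻¹ • x else x
  have hG : ∀ n, Measurable (G n) := fun n =>
    Measurable.ite (hPM n) (hmp _) (Measurable.ite (hQM n) (hmp _) measurable_id)
  let ψ : X → X := fun x => G (Nat.find (hp x)) x
  have hψm : Measurable ψ := by
    refine Measurable.find (p := fun n x => x ∈ (P n ∪ Q n) ∪ Wᶜ) hG (fun n => ?_) hp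
    exact ((hPM n).union (hQM n)).union
      (MeasurableSet.iUnion fun k => (hPM k).union (hQM k)).compl
  have hfind : ∀ k x, x ∈ P k ∪ Q k → Nat.find (hp x) = k := fun k x h =>
    huniq _ _ x ((Nat.find_spec (hp x)).resolve_right (not_not.2 (Set.mem_iUnion.2 ⟨k, h⟩))) h
  have hψP : ∀ k x, x ∈ P k → ψ x = e k • x := by
    intro k x h
    simp only [ψ, hfind k x (Or.inl h), G, if_pos h]
  have hψQ : ∀ k x, x ∈ Q k → ψ x = (e k)⁻¹ • x := by
    intro k x h
    have h' : x ∉ P k := fun h' => h.1 h'.1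
    simp only [ψ, hfind k x (Or.inr h), G, if_neg h', if_pos h]
  have hψ0 : ∀ x, (¬ ∃ k, x ∈ P k ∪ Q k) → ψ x = x := by
    intro x h
    have h1 : x ∉ P (Nat.find (hp x)) := fun h' => h ⟨_, Or.inl h'⟩
    have h2 : x ∉ Q (Nat.find (hp x)) := fun h' => h ⟨_, Or.inr h'⟩
    simp only [ψ, G, if_neg h1, if_neg h2]
  have hinv : Function.Involutive ψ := by
    intro x
    by_cases h : ∃ k, x ∈ P k ∪ Q k
    · obtain ⟨k, h | h⟩ := h
      · rw [hψP k x h, hψQ k _ (hPQ k x h), inv_smul_smul]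
      · rw [hψQ k x h, hψP k _ (hQP k x h), smul_inv_smul]
    · rw [hψ0 x h, hψ0 x h]
  have hE : ∀ x, ∃ g : Γ, ψ x = g • x := by
    intro x
    by_cases h : ∃ k, x ∈ P k ∪ Q k
    · obtain ⟨k, h | h⟩ := h
      · exact ⟨_, hψP k x h⟩
      · exact ⟨_, hψQ k x h⟩
    · exact ⟨1, by rw [hψ0 x h, one_smul]⟩
  refine ⟨ψ, hψm, hinv, hE, ?_⟩
  have hψ : MeasurePreserving ψ μ μ := ⟨hψm, hfull ψ hψm hinv.bijective hE⟩
  have hUmem : ∀ n x, x ∈ U n → ∃ k, x ∈ P k ∪ Q k := by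
    intro n
    induction n with
    | zero => intro x h; exact h.elim
    | succ n ih =>
      intro x h
      rw [hU] at h
      rcases h with h | h
      · exact ih x h
      · exact ⟨n, h⟩
  let A' : Set X := A ∩ ψ ⁻¹' A
  have hA' : MeasurableSet A' := hA.inter (hψm hA)
  have hA'0 : ∀ x ∈ A', ¬ ∃ k, x ∈ P k ∪ Q k := by
    rintro x hx ⟨k, h | h⟩
    · have h2 : ψ x ∈ A := hx.2
      rw [hψP k x h] at h2
      exact h.2.2.1 h2
    · exact h.1 hx.1
  let B : Set X := ⋃ g : Γ, (fun x => g • x) ⁻¹' A'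
  have hB : MeasurableSet B := MeasurableSet.iUnion fun g => hmp g hA'
  have hBi : ∀ g : Γ, (fun x => g • x) ⁻¹' B = B := by
    intro g
    ext x
    simp only [B, Set.mem_preimage, Set.mem_iUnion]
    constructor
    · rintro ⟨k, hk⟩
      exact ⟨k * g, by rwa [mul_smul]⟩
    · rintro ⟨k, hk⟩
      exact ⟨k * g⁻¹, by rwa [mul_smul, inv_smul_smul]⟩
  rcases herg B hB hBi with h | h
  · exact measure_mono_null (fun x hx => Set.mem_iUnion.2 ⟨1, by rw [Set.mem_preimage, one_smul]; exact hx⟩) h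
  · exfalso
    have hsub : B ⊆ A ∪ ψ ⁻¹' A := by
      intro y hy
      by_contra hn
      simp only [Set.mem_union, Set.mem_preimage, not_or] at hn
      obtain ⟨g, hg⟩ := Set.mem_iUnion.1 hy
      have hg' : g • y ∈ A' := hg
      obtain ⟨k, hk⟩ := he g⁻¹
      have hy0 : ¬ ∃ k, y ∈ P k ∪ Q k := by
        rintro ⟨j, h | h⟩
        · exact hn.1 h.1
        · rw [hψQ j y h] at hn
          exact hn.2 h.2.2.1
      refine hA'0 _ hg' ⟨k, Or.inl ⟨hg'.1, fun h => hA'0 _ hg' (hUmem _ _ h), ?_, ?_⟩⟩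
      · rw [hk, inv_smul_smul]; exact hn.1
      · rw [hk, inv_smul_smul]; exact fun h => hy0 (hUmem _ _ h)
    have h1 : μ.real B = 1 := by simp [Measure.real, h]
    have h2 : μ.real B ≤ μ.real A + μ.real (ψ ⁻¹' A) :=
      (real_mono hsub).trans (measureReal_union_le _ _)
    rw [real_pre hψ hA] at h2
    linarith

/-- The global Cheeger inequality. -/
theorem cheeger_global [IsProbabilityMeasure μ] {ι : Type} [Fintype ι] {φ : ι → X → X}
    (hφ : ∀ i, MeasurePreserving (φ i) μ μ) {ψ : X → X} (hψ : MeasurePreserving ψ μ μ)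
    {ε : ℝ} (hε : 0 < ε) {A : Set X} (hA : MeasurableSet A) (h0 : μ (A ∩ ψ ⁻¹' A) = 0)
    (h : ∀ C, MeasurableSet C → 2 * μ.real (C \ A) + μ.real A ≤ 1 →
      ε * μ.real (C \ A) ≤ ∑ i, bd μ (φ i) C) :
    ∀ C, MeasurableSet C → μ.real C ≤ 1 / 2 →
      μ.real C ≤ (2 / ε + 1) * ∑ i : Option ι, bd μ (i.elim ψ φ) C := by
  have key : ∀ C, MeasurableSet C → 2 * μ.real (C \ A) + μ.real A ≤ 1 →
      μ.real C ≤ (2 / ε + 1) * ∑ i : Option ι, bd μ (i.elim ψ φ) C := by
    intro C hC hC1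
    have h1 := h C hC hC1
    have h2 := measureReal_inter_add_sdiff (μ := μ) (s := C) hA
    have h3 : μ.real (C ∩ A) ≤ bd μ ψ C + μ.real (ψ ⁻¹' (C \ A)) + μ.real (A ∩ ψ ⁻¹' A) := by
      refine le_trans (real_mono (t := ((C \ ψ ⁻¹' C) ∪ ψ ⁻¹' (C \ A)) ∪ (A ∩ ψ ⁻¹' A)) ?_)
        ((measureReal_union_le _ _).trans (add_le_add_left (measureReal_union_le _ _) _))
      rintro x ⟨hx1, hx2⟩
      by_cases a : ψ x ∈ C
      · by_cases b : ψ x ∈ A
        · exact Or.inr ⟨hx2, b⟩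
        · exact Or.inl (Or.inr ⟨a, b⟩)
      · exact Or.inl (Or.inl ⟨hx1, a⟩)
    rw [real_pre hψ (hC.diff hA)] at h3
    have h4 : μ.real (A ∩ ψ ⁻¹' A) = 0 := by simp [Measure.real, h0]
    rw [Fintype.sum_option]
    simp only [Option.elim_none, Option.elim_some]
    have h5 : 0 ≤ ∑ i, bd μ (φ i) C := Finset.sum_nonneg fun i _ => bd_nonneg _ _
    have h6 := bd_nonneg (μ := μ) ψ C
    have h7 : μ.real (C \ A) ≤ 1 / ε * ∑ i, bd μ (φ i) C := by
      rw [one_div, inv_mul_eq_div, le_div_iff₀ hε]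
      linarith
    have h8 : 0 ≤ 2 / ε * bd μ ψ C := by positivity
    have h9 : 2 / ε = 2 * (1 / ε) := by ring
    rw [h9] at h8 ⊢
    nlinarith
  intro C hC hC1
  by_cases hc : 2 * μ.real (C \ A) + μ.real A ≤ 1
  · exact key C hC hc
  · have h1 := measureReal_inter_add_sdiff (μ := μ) (s := Aᶜ) hC
    have e1 : Aᶜ ∩ C = C \ A := by ext x; simp [and_comm]
    have e2 : Aᶜ \ C = Cᶜ \ A := by ext x; simp [and_comm]
    rw [e1, e2, probReal_compl_eq_one_sub hA] at h1
    have h2 := key Cᶜ hC.compl (by linarith)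
    rw [probReal_compl_eq_one_sub hC] at h2
    have e3 : ∑ i : Option ι, bd μ (i.elim ψ φ) Cᶜ = ∑ i : Option ι, bd μ (i.elim ψ φ) C :=
      Finset.sum_congr rfl fun i _ => by
        cases i with
        | none => exact bd_compl hψ hC
        | some i => exact bd_compl (hφ i) hC
    rw [e3] at h2
    linarith

/-- Co-area inequality. -/
theorem coarea [IsProbabilityMeasure μ] {ι : Type} [Fintype ι] {φ : ι → X → X}
    (hφ : ∀ i, MeasurePreserving (φ i) μ μ) {K : ℝ} (hK : 0 ≤ K)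
    (h : ∀ C, MeasurableSet C → μ.real C ≤ 1 / 2 → μ.real C ≤ K * ∑ i, bd μ (φ i) C)
    {u : X → ℝ} (hu : Measurable u) (hu0 : ∀ x, 0 ≤ u x) (hui : Integrable u μ)
    (hs : μ.real {x | 0 < u x} ≤ 1 / 2) :
    ∫ x, u x ∂μ ≤ K * ∑ i, ∫ x, (u x - min (u x) (u (φ i x))) ∂μ := by
  let m : ι → X → ℝ := fun i x => min (u x) (u (φ i x))
  have hm : ∀ i, Measurable (m i) := fun i => hu.min (hu.comp (hφ i).measurable)
  have hm0 : ∀ i x, 0 ≤ m i x := fun i x => le_min (hu0 _) (hu0 _)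
  have hmi : ∀ i, Integrable (m i) μ := fun i =>
    hui.mono' (hm i).aestronglyMeasurable (Filter.Eventually.of_forall fun x => by
      rw [Real.norm_of_nonneg (hm0 i x)]; exact min_le_left _ _)
  have hint : ∀ v : X → ℝ, Measurable v → (∀ x, 0 ≤ v x) → Integrable v μ →
      IntegrableOn (fun t => μ.real {x | t < v x}) (Set.Ioi 0) ∧
        ∫ x, v x ∂μ = ∫ t in Set.Ioi 0, μ.real {x | t < v x} := by
    intro v hv hv0 hvi
    refine ⟨?_, hvi.integral_eq_integral_meas_lt (Filter.Eventually.of_forall hv0)⟩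
    have ha : Antitone fun t : ℝ => μ {x | t < v x} := fun s t hst =>
      measure_mono fun x hx => lt_of_le_of_lt hst hx
    refine integrable_toReal_of_lintegral_ne_top ha.measurable.aemeasurable ?_
    rw [← lintegral_eq_lintegral_meas_lt μ (Filter.Eventually.of_forall hv0) hv.aemeasurable]
    exact hvi.lintegral_lt_top.ne
  obtain ⟨i1, e1⟩ := hint u hu hu0 hui
  have e2 : ∀ i, ∫ x, (u x - min (u x) (u (φ i x))) ∂μ =
      ∫ t in Set.Ioi 0, (μ.real {x | t < u x} - μ.real {x | t < m i x}) := by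
    intro i
    obtain ⟨i2, e2⟩ := hint (m i) (hm i) (hm0 i) (hmi i)
    rw [integral_sub i1 i2, ← e1, ← e2, ← integral_sub hui (hmi i)]
  have i3 : ∀ i, IntegrableOn (fun t => μ.real {x | t < u x} - μ.real {x | t < m i x})
      (Set.Ioi 0) := fun i => i1.sub (hint (m i) (hm i) (hm0 i) (hmi i)).1
  simp_rw [e2]
  rw [e1, ← integral_finsetSum _ fun i _ => i3 i, ← integral_const_mul]
  refine setIntegral_mono_on i1 ((integrable_finsetSum _ fun i _ => i3 i).const_mul K)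
    measurableSet_Ioi fun t ht => ?_
  have hC : MeasurableSet {x | t < u x} := measurableSet_lt measurable_const hu
  refine (h _ hC (le_trans (real_mono (t := {x | 0 < u x}) fun x hx =>
    show 0 < u x from lt_trans ht hx) hs)).trans
    (mul_le_mul_of_nonneg_left (le_of_eq (Finset.sum_congr rfl fun i _ => ?_)) hK)
  have h1 := measureReal_inter_add_sdiff (μ := μ) (s := {x | t < u x}) ((hφ i).measurable hC)
  have e : {x | t < u x} ∩ φ i ⁻¹' {x | t < u x} = {x | t < m i x} := by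
    ext x; simp [m]
  rw [e] at h1
  unfold bd
  linarith

/-- Cheeger inequality for nonnegative functions with small support. -/
theorem cheeger_pos [IsProbabilityMeasure μ] {ι : Type} [Fintype ι] {φ : ι → X → X}
    (hφ : ∀ i, MeasurePreserving (φ i) μ μ) {K : ℝ} (hK : 0 < K)
    (h : ∀ C, MeasurableSet C → μ.real C ≤ 1 / 2 → μ.real C ≤ K * ∑ i, bd μ (φ i) C)
    {g : X → ℝ} (hg : Measurable g) (hg0 : ∀ x, 0 ≤ g x) (hgi : MemLp g 2 μ)
    (hs : μ.real {x | 0 < g x} ≤ 1 / 2) :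
    ∫ x, g x ^ 2 ∂μ ≤ 4 * K ^ 2 * (Fintype.card ι + 1) * ∑ i, ∫ x, (g (φ i x) - g x) ^ 2 ∂μ := by
  have hui : Integrable (fun x => g x ^ 2) μ := hgi.integrable_sq
  have h1 := coarea hφ hK.le h (hg.pow_const 2) (fun x => sq_nonneg _) hui
    (le_trans (real_mono (t := {x | 0 < g x}) fun x hx => by
      have hx' : 0 < g x ^ 2 := hx
      exact lt_of_le_of_ne (hg0 x) fun e => by rw [← e] at hx'; simp at hx') hs)
  set N : ℝ := Fintype.card ι + 1 with hN
  have hN0 : 0 < N := by positivity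
  set η : ℝ := 1 / (4 * K * N) with hη
  have hη0 : 0 < η := by positivity
  set I := ∫ x, g x ^ 2 ∂μ with hI
  have hI0 : 0 ≤ I := integral_nonneg fun x => sq_nonneg _
  have h2 : ∀ i, ∫ x, (g x ^ 2 - min (g x ^ 2) (g (φ i x) ^ 2)) ∂μ ≤
      1 / (2 * η) * ∫ x, (g (φ i x) - g x) ^ 2 ∂μ + 2 * η * I := by
    intro i
    have a1 : MemLp (fun x => g (φ i x)) 2 μ := hgi.comp_measurePreserving (hφ i)
    have a2 : Integrable (fun x => (g (φ i x) - g x) ^ 2) μ := (a1.sub hgi).integrable_sq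
    have a3 : Integrable (fun x => g (φ i x) ^ 2) μ := a1.integrable_sq
    have a4 : ∫ x, g (φ i x) ^ 2 ∂μ = I := by
      rw [hI, ← (hφ i).map_eq, integral_map (hφ i).measurable.aemeasurable
        (hg.pow_const 2).aestronglyMeasurable, (hφ i).map_eq]
    have a5 : 1 / (2 * η) * ∫ x, (g (φ i x) - g x) ^ 2 ∂μ + 2 * η * I =
        ∫ x, (1 / (2 * η) * (g (φ i x) - g x) ^ 2 + η * (g x ^ 2 + g (φ i x) ^ 2)) ∂μ := by
      have a6 : Integrable (fun x => g x ^ 2 + g (φ i x) ^ 2) μ := hui.add a3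
      rw [integral_add (a2.const_mul _) (a6.const_mul _), integral_const_mul,
        integral_const_mul, integral_add hui a3, a4]
      ring
    rw [a5]
    refine integral_mono (hui.sub (hui.inf a3)) ((a2.const_mul _).add ((hui.add a3).const_mul _))
      fun x => ?_
    have b0 : 0 ≤ 1 / (2 * η) * (g (φ i x) - g x) ^ 2 := by positivity
    have b1 : g x ^ 2 - g (φ i x) ^ 2 ≤
        1 / (2 * η) * (g (φ i x) - g x) ^ 2 + η * (g x ^ 2 + g (φ i x) ^ 2) := by
      have c1 : 1 / (2 * η) * (g (φ i x) - g x) ^ 2 + η * (g x ^ 2 + g (φ i x) ^ 2) -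
          (g x ^ 2 - g (φ i x) ^ 2) =
          1 / (2 * η) * ((g (φ i x) - g x) + η * (g x + g (φ i x))) ^ 2 +
            η / 2 * (g x - g (φ i x)) ^ 2 := by
        field_simp
        ring
      have c2 : 0 ≤ 1 / (2 * η) * ((g (φ i x) - g x) + η * (g x + g (φ i x))) ^ 2 +
            η / 2 * (g x - g (φ i x)) ^ 2 := by positivity
      linarith
    have b2 : 0 ≤ η * (g x ^ 2 + g (φ i x) ^ 2) := by positivity
    change g x ^ 2 - min (g x ^ 2) (g (φ i x) ^ 2) ≤ _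
    rcases le_total (g x ^ 2) (g (φ i x) ^ 2) with c | c
    · rw [min_eq_left c]; linarith
    · rw [min_eq_right c]; exact b1
  have h3 : ∑ i, ∫ x, (g x ^ 2 - min (g x ^ 2) (g (φ i x) ^ 2)) ∂μ ≤
      1 / (2 * η) * ∑ i, ∫ x, (g (φ i x) - g x) ^ 2 ∂μ + N * (2 * η * I) := by
    refine (Finset.sum_le_sum fun i _ => h2 i).trans ?_
    rw [Finset.sum_add_distrib, ← Finset.mul_sum, Finset.sum_const, Finset.card_univ, nsmul_eq_mul]
    have : 0 ≤ 2 * η * I := by positivity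
    nlinarith
  have h4 := h1.trans (mul_le_mul_of_nonneg_left h3 hK.le)
  have e1 : K * (N * (2 * η * I)) = I / 2 := by rw [hη]; field_simp; ring
  have e2 : K * (1 / (2 * η)) = 2 * K ^ 2 * N := by rw [hη]; field_simp; ring
  rw [mul_add, e1, ← mul_assoc, e2] at h4
  linarith

theorem exists_median [IsProbabilityMeasure μ] {f : X → ℝ} (hf : Measurable f) :
    ∃ c : ℝ, μ.real {x | c < f x} ≤ 1 / 2 ∧ μ.real {x | f x < c} ≤ 1 / 2 := by
  let T : Set ℝ := {t | μ.real {x | t < f x} ≤ 1 / 2}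
  have hc : ∀ t, μ.real {x | f x ≤ t} = 1 - μ.real {x | t < f x} := by
    intro t
    rw [← probReal_compl_eq_one_sub (measurableSet_lt measurable_const hf)]
    congr 1
    ext x; simp
  have hne : T.Nonempty := by
    by_contra hn
    have h1 : μ.real (⋃ n : ℕ, {x | f x ≤ n}) ≤ 1 / 2 := by
      refine real_iUnion_le (A := fun n : ℕ => {x | f x ≤ n})
        (fun m n h x hx => show f x ≤ n from le_trans hx (Nat.cast_le.2 h)) fun n => ?_
      have : ¬ μ.real {x | (n : ℝ) < f x} ≤ 1 / 2 := fun h => hn ⟨n, h⟩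
      rw [hc]; linarith [not_le.1 this]
    have e : (⋃ n : ℕ, {x | f x ≤ n}) = Set.univ :=
      Set.eq_univ_of_forall fun x => Set.mem_iUnion.2 (exists_nat_ge (f x))
    rw [e, probReal_univ] at h1
    linarith
  have hup : ∀ s ∈ T, ∀ t, s ≤ t → t ∈ T := fun s hs t hst =>
    le_trans (real_mono (t := {x | s < f x}) fun x hx => lt_of_le_of_lt hst hx) hs
  have hbd : BddBelow T := by
    by_contra hn
    have h1 : μ.real (⋃ n : ℕ, {x | -(n : ℝ) < f x}) ≤ 1 / 2 := by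
      refine real_iUnion_le (A := fun n : ℕ => {x | -(n : ℝ) < f x}) (fun m n h x hx =>
        show -(n : ℝ) < f x from lt_of_le_of_lt (neg_le_neg (Nat.cast_le.2 h)) hx) fun n => ?_
      obtain ⟨s, hs, hs'⟩ := not_bddBelow_iff.1 hn (-(n : ℝ))
      exact hup s hs _ hs'.le
    have e : (⋃ n : ℕ, {x | -(n : ℝ) < f x}) = Set.univ :=
      Set.eq_univ_of_forall fun x => by
        obtain ⟨n, hn⟩ := exists_nat_gt (-f x)
        exact Set.mem_iUnion.2 ⟨n, show -(n : ℝ) < f x by linarith⟩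
    rw [e, probReal_univ] at h1
    linarith
  have hmono : ∀ m n : ℕ, m ≤ n → (1 : ℝ) / (n + 1) ≤ 1 / (m + 1) := fun m n h =>
    Nat.one_div_le_one_div h
  refine ⟨sInf T, ?_, ?_⟩
  · have e : {x | sInf T < f x} = ⋃ n : ℕ, {x | sInf T + 1 / ((n : ℝ) + 1) < f x} := by
      ext x
      simp only [Set.mem_iUnion, Set.mem_ofPred_eq]
      constructor
      · intro h
        obtain ⟨n, hn⟩ := exists_nat_one_div_lt (sub_pos.2 h)
        exact ⟨n, by linarith⟩
      · rintro ⟨n, hn⟩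
        have : (0 : ℝ) < 1 / ((n : ℝ) + 1) := by positivity
        linarith
    rw [e]
    refine real_iUnion_le (fun m n h x hx => ?_) fun n => ?_
    · have := hmono m n h
      have hx' : sInf T + 1 / ((m : ℝ) + 1) < f x := hx
      change sInf T + 1 / ((n : ℝ) + 1) < f x
      linarith
    · have : (0 : ℝ) < 1 / ((n : ℝ) + 1) := by positivity
      obtain ⟨s, hs, hs'⟩ := exists_lt_of_csInf_lt hne
        (show sInf T < sInf T + 1 / ((n : ℝ) + 1) by linarith)
      exact hup s hs _ hs'.le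
  · have e : {x | f x < sInf T} = ⋃ n : ℕ, {x | f x ≤ sInf T - 1 / ((n : ℝ) + 1)} := by
      ext x
      simp only [Set.mem_iUnion, Set.mem_ofPred_eq]
      constructor
      · intro h
        obtain ⟨n, hn⟩ := exists_nat_one_div_lt (sub_pos.2 h)
        exact ⟨n, by linarith⟩
      · rintro ⟨n, hn⟩
        have : (0 : ℝ) < 1 / ((n : ℝ) + 1) := by positivity
        linarith
    rw [e]
    refine real_iUnion_le (fun m n h x hx => ?_) fun n => ?_
    · have := hmono m n h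
      have hx' : f x ≤ sInf T - 1 / ((m : ℝ) + 1) := hx
      change f x ≤ sInf T - 1 / ((n : ℝ) + 1)
      linarith
    · have h0 : (0 : ℝ) < 1 / ((n : ℝ) + 1) := by positivity
      have : ¬ μ.real {x | sInf T - 1 / ((n : ℝ) + 1) < f x} ≤ 1 / 2 := fun h => by
        have := csInf_le hbd h
        linarith
      rw [hc]; linarith [not_le.1 this]

/-- Cheeger inequality for real functions of mean zero. -/
theorem cheeger_real [IsProbabilityMeasure μ] {ι : Type} [Fintype ι] {φ : ι → X → X}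
    (hφ : ∀ i, MeasurePreserving (φ i) μ μ) {K : ℝ} (hK : 0 < K)
    (h : ∀ C, MeasurableSet C → μ.real C ≤ 1 / 2 → μ.real C ≤ K * ∑ i, bd μ (φ i) C)
    {f : X → ℝ} (hf : Measurable f) (hfi : MemLp f 2 μ) (h0 : ∫ x, f x ∂μ = 0) :
    ∫ x, f x ^ 2 ∂μ ≤ 8 * K ^ 2 * (Fintype.card ι + 1) * ∑ i, ∫ x, (f (φ i x) - f x) ^ 2 ∂μ := by
  obtain ⟨c, hc1, hc2⟩ := exists_median (μ := μ) hf
  have hfc : MemLp (fun x => f x - c) 2 μ := hfi.sub (memLp_const c)
  have hcf : MemLp (fun x => c - f x) 2 μ := (memLp_const c).sub hfi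
  have key : ∀ v : X → ℝ, Measurable v → MemLp v 2 μ → μ.real {x | 0 < v x} ≤ 1 / 2 →
      (∀ x y, (v y - v x) ^ 2 = (f y - f x) ^ 2) → ∫ x, (max (v x) 0) ^ 2 ∂μ ≤
        4 * K ^ 2 * (Fintype.card ι + 1) * ∑ i, ∫ x, (f (φ i x) - f x) ^ 2 ∂μ := by
    intro v hv hvi hs he
    have hp : MemLp (fun x => max (v x) 0) 2 μ := hvi.pos_part
    refine (cheeger_pos hφ hK h (g := fun x => max (v x) 0) (hv.max measurable_const)
      (fun x => le_max_right _ _) hp (le_trans (real_mono fun x hx => ?_) hs)).trans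
      (mul_le_mul_of_nonneg_left (Finset.sum_le_sum fun i _ => ?_) (by positivity))
    · have hx' : 0 < max (v x) 0 := hx
      change 0 < v x
      simpa using hx'
    · refine integral_mono ((hp.comp_measurePreserving (hφ i)).sub hp).integrable_sq
        ((hfi.comp_measurePreserving (hφ i)).sub hfi).integrable_sq fun x => ?_
      change (max (v (φ i x)) 0 - max (v x) 0) ^ 2 ≤ (f (φ i x) - f x) ^ 2
      rw [← he, sq_le_sq]
      exact abs_max_sub_max_le_abs _ _ _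
  have k1 := key (fun x => f x - c) (hf.sub measurable_const) hfc
    (by simpa only [sub_pos] using hc1) (fun x y => by ring)
  have k2 := key (fun x => c - f x) (measurable_const.sub hf) hcf
    (by simpa only [sub_pos] using hc2) (fun x y => by ring)
  have e1 : ∫ x, (f x - c) ^ 2 ∂μ =
      ∫ x, (max (f x - c) 0) ^ 2 ∂μ + ∫ x, (max (c - f x) 0) ^ 2 ∂μ := by
    rw [← integral_add hfc.pos_part.integrable_sq hcf.pos_part.integrable_sq]
    refine integral_congr_ae (Filter.Eventually.of_forall fun x => ?_)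
    change (f x - c) ^ 2 = (max (f x - c) 0) ^ 2 + (max (c - f x) 0) ^ 2
    rcases le_total (f x) c with a | a
    · rw [max_eq_right (by linarith), max_eq_left (by linarith)]; ring
    · rw [max_eq_left (by linarith), max_eq_right (by linarith)]; ring
  have e2 : ∫ x, (f x - c) ^ 2 ∂μ = ∫ x, f x ^ 2 ∂μ + c ^ 2 := by
    have a1 : Integrable f μ := hfi.integrable (by norm_num)
    have a2 : Integrable (fun x => c ^ 2 - 2 * c * f x) μ :=
      (integrable_const _).sub (a1.const_mul _)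
    have : (fun x => (f x - c) ^ 2) = fun x => f x ^ 2 + (c ^ 2 - 2 * c * f x) := by
      funext x; ring
    rw [this, integral_add hfi.integrable_sq a2, integral_sub (integrable_const _)
      (a1.const_mul _), integral_const_mul, h0]
    simp
  nlinarith [sq_nonneg c]

/-- Cheeger inequality for complex functions of mean zero. -/
theorem cheeger_cplx [IsProbabilityMeasure μ] {ι : Type} [Fintype ι] {φ : ι → X → X}
    (hφ : ∀ i, MeasurePreserving (φ i) μ μ) {K : ℝ} (hK : 0 < K)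
    (h : ∀ C, MeasurableSet C → μ.real C ≤ 1 / 2 → μ.real C ≤ K * ∑ i, bd μ (φ i) C)
    {f : X → ℂ} (hf : Measurable f) (hfi : MemLp f 2 μ) (h0 : ∫ x, f x ∂μ = 0) :
    ∫ x, ‖f x‖ ^ 2 ∂μ ≤
      8 * K ^ 2 * (Fintype.card ι + 1) * ∑ i, ∫ x, ‖f (φ i x) - f x‖ ^ 2 ∂μ := by
  have a1 : Integrable f μ := hfi.integrable (by norm_num)
  have k1 := cheeger_real hφ hK h (f := fun x => (f x).re) (Complex.measurable_re.comp hf) hfi.re
    (by have := integral_re a1; rw [h0] at this; simpa using this)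
  have k2 := cheeger_real hφ hK h (f := fun x => (f x).im) (Complex.measurable_im.comp hf) hfi.im
    (by have := integral_im a1; rw [h0] at this; simpa using this)
  have e : ∀ v : X → ℂ, MemLp v 2 μ →
      ∫ x, ‖v x‖ ^ 2 ∂μ = ∫ x, (v x).re ^ 2 ∂μ + ∫ x, (v x).im ^ 2 ∂μ := by
    intro v hv
    have b1 : Integrable (fun x => (v x).re ^ 2) μ := hv.re.integrable_sq
    have b2 : Integrable (fun x => (v x).im ^ 2) μ := hv.im.integrable_sq
    rw [← integral_add b1 b2]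
    refine integral_congr_ae (Filter.Eventually.of_forall fun x => ?_)
    change ‖v x‖ ^ 2 = (v x).re ^ 2 + (v x).im ^ 2
    rw [Complex.sq_norm, Complex.normSq_apply]; ring
  have e2 : ∀ i, ∫ x, ‖f (φ i x) - f x‖ ^ 2 ∂μ =
      ∫ x, ((f (φ i x)).re - (f x).re) ^ 2 ∂μ + ∫ x, ((f (φ i x)).im - (f x).im) ^ 2 ∂μ :=
    fun i => e (fun x => f (φ i x) - f x) ((hfi.comp_measurePreserving (hφ i)).sub hfi)
  rw [e f hfi]
  simp_rw [e2]
  rw [Finset.sum_add_distrib, mul_add]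
  exact add_le_add k1 k2

/-- The spectral gap in the form of the problem. -/
theorem gap_of_cheeger [IsProbabilityMeasure μ] {ι : Type} [Fintype ι] [Nonempty ι]
    {φ : ι → X → X} (hφ : ∀ i, MeasurePreserving (φ i) μ μ) {K : ℝ} (hK : 0 < K)
    (h : ∀ C, MeasurableSet C → μ.real C ≤ 1 / 2 → μ.real C ≤ K * ∑ i, bd μ (φ i) C) :
    ∃ ε : ℝ, 0 < ε ∧ ∀ ξ : X → ℂ, MemLp ξ 2 μ → ∫ x, ξ x ∂μ = 0 →
      ∃ i, ENNReal.ofReal ε * eLpNorm ξ 2 μ ≤ eLpNorm (fun x => ξ (φ i x) - ξ x) 2 μ := by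
  set N : ℝ := Fintype.card ι + 1 with hN
  have hN0 : 0 < N := by positivity
  refine ⟨1 / (3 * K * N), by positivity, fun ξ hξ h0 => ?_⟩
  let f := hξ.1.mk ξ
  have hf : Measurable f := hξ.1.stronglyMeasurable_mk.measurable
  have hae : ξ =ᵐ[μ] f := hξ.1.ae_eq_mk
  have hfi : MemLp f 2 μ := hξ.ae_eq hae
  have k := cheeger_cplx hφ hK h hf hfi (by rw [← integral_congr_ae hae, h0])
  obtain ⟨i, _, hi⟩ := Finset.exists_max_image Finset.univ
    (fun i => ∫ x, ‖f (φ i x) - f x‖ ^ 2 ∂μ) Finset.univ_nonempty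
  refine ⟨i, ?_⟩
  have hae2 : (fun x => ξ (φ i x) - ξ x) =ᵐ[μ] fun x => f (φ i x) - f x :=
    ((hφ i).quasiMeasurePreserving.ae_eq_comp hae).sub hae
  have hd : MemLp (fun x => f (φ i x) - f x) 2 μ := (hfi.comp_measurePreserving (hφ i)).sub hfi
  rw [eLpNorm_congr_ae hae, eLpNorm_congr_ae hae2,
    hfi.eLpNorm_eq_integral_rpow_norm two_ne_zero ENNReal.ofNat_ne_top,
    hd.eLpNorm_eq_integral_rpow_norm two_ne_zero ENNReal.ofNat_ne_top,
    ← ENNReal.ofReal_mul (by positivity)]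
  refine ENNReal.ofReal_le_ofReal ?_
  simp only [ENNReal.toReal_ofNat, Real.rpow_two]
  set I := ∫ x, ‖f x‖ ^ 2 ∂μ
  set D := ∫ x, ‖f (φ i x) - f x‖ ^ 2 ∂μ
  have hI : 0 ≤ I := integral_nonneg fun x => sq_nonneg _
  have hD : 0 ≤ D := integral_nonneg fun x => sq_nonneg _
  have h1 : ∑ j, ∫ x, ‖f (φ j x) - f x‖ ^ 2 ∂μ ≤ N * D := by
    refine (Finset.sum_le_sum fun j hj => hi j hj).trans ?_
    rw [Finset.sum_const, Finset.card_univ, nsmul_eq_mul]
    nlinarith
  have h2 : I ≤ (3 * K * N) ^ 2 * D := by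
    refine k.trans ((mul_le_mul_of_nonneg_left h1 (by positivity)).trans ?_)
    have : 0 ≤ K ^ 2 * N ^ 2 * D := by positivity
    nlinarith
  rw [show (2 : ℝ)⁻¹ = 1 / 2 by norm_num, ← Real.sqrt_eq_rpow, ← Real.sqrt_eq_rpow, one_div,
    inv_mul_le_iff₀ (by positivity)]
  refine (Real.sqrt_le_sqrt h2).trans (le_of_eq ?_)
  rw [Real.sqrt_mul (sq_nonneg _), Real.sqrt_sq (by positivity)]

/-- Strong ergodicity of an ergodic action gives a spectral gap for the full group of its orbit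
relation. -/
theorem gap_of_strong {Γ : Type} [Group Γ] [Countable Γ] [MulAction Γ X] [IsProbabilityMeasure μ]
    (hmp : ∀ g : Γ, MeasurePreserving (fun x : X => g • x) μ μ)
    (herg : ∀ B, MeasurableSet B → (∀ g : Γ, (fun x => g • x) ⁻¹' B = B) → μ B = 0 ∨ μ B = 1)
    (hfull : ∀ f : X → X, Measurable f → Function.Bijective f → (∀ x, ∃ g : Γ, f x = g • x) →
      μ.map f = μ)
    {k : ℕ} (s : Fin k → Γ) {ε : ℝ} (hε : 0 < ε)
    (hSE : ∀ A, MeasurableSet A → 1 / 3 ≤ μ.real A → μ.real A ≤ 2 / 3 →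
      ε ≤ ∑ i, bd μ (fun x => s i • x) A) :
    ∃ (F : Finset (X ≃ᵐ X)) (δ : ℝ), 0 < δ ∧ (∀ θ ∈ F, ∀ x, ∃ g : Γ, θ x = g • x) ∧
      ∀ ξ : X → ℂ, MemLp ξ 2 μ → ∫ x, ξ x ∂μ = 0 →
        ∃ θ ∈ F, ENNReal.ofReal δ * eLpNorm ξ 2 μ ≤ eLpNorm (fun x => ξ (θ.symm x) - ξ x) 2 μ := by
  classical
  obtain ⟨A, hA, hA3, hc⟩ := exists_core hε hSE
  obtain ⟨ψ, hψm, hinv, hE, h0⟩ := exists_swap (fun g => (hmp g).measurable) herg hfull hA
    (by linarith)
  have hψ : MeasurePreserving ψ μ μ := ⟨hψm, hfull ψ hψm hinv.bijective hE⟩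
  have hg := cheeger_global (fun i => hmp (s i)) hψ hε hA h0 hc
  obtain ⟨δ, hδ, hgap⟩ := gap_of_cheeger (φ := fun i : Option (Fin k) =>
    i.elim ψ fun i x => s i • x) (fun i => by
      cases i with
      | none => exact hψ
      | some i => exact hmp (s i)) (by positivity) hg
  let θ : Option (Fin k) → X ≃ᵐ X := fun i => i.elim
    ⟨hinv.toPerm, hψm, hψm⟩
    fun i => ⟨MulAction.toPerm (s i)⁻¹, (hmp _).measurable, (hmp _).measurable⟩
  refine ⟨Finset.univ.image θ, δ, hδ, ?_, fun ξ h1 h2 => ?_⟩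
  · intro _ h x
    obtain ⟨i, _, rfl⟩ := Finset.mem_image.1 h
    cases i with
    | none => exact hE x
    | some i => exact ⟨(s i)⁻¹, rfl⟩
  · obtain ⟨i, hi⟩ := hgap ξ h1 h2
    refine ⟨θ i, Finset.mem_image_of_mem _ (Finset.mem_univ _), ?_⟩
    cases i with
    | none => exact hi
    | some i =>
      have e : (fun x => ξ ((θ (some i)).symm x) - ξ x) = fun x => ξ (s i • x) - ξ x := by
        funext x
        change ξ ((s i)⁻¹⁻¹ • x) - ξ x = _
        rw [inv_inv]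
      rw [e]
      exact hi

end Pool.Agent.MP_735563_an.H6
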